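import Pool.Agent.H45.LatticeWave.Proof

namespace Pool.Agent.Results.MP_220de9_an.TravellingWave

open Pool.Agent.H45.LatticeWave

theorem result :
    (∃ (τ : ℝ) (W : ℝ → ℝ) (m : ℕ → ℝ), ConvergesToWave τ W m) ∧
    ∀ (τ : ℝ) (W : ℝ → ℝ) (m : ℕ → ℝ), ConvergesToWave τ W m →
      (1 < τ ∧ τ < 2) ∧ DoubleExpTail (fun r => W (-r)) ∧ ExpTail (fun r => 1 - W r) :=
  main

end Pool.Agent.Results.MP_220de9_an.TravellingWave
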